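import Pool.Agent.Helper29.E3.St1
import Pool.Agent.Helper49.PC.M_MIT

/-! E3 module MITX: minor arcs for the primes, modulus up to `M ^ (2 - ε)`. -/

set_option autoImplicit false

namespace Pool.Agent.Helper36.E3

open Finset ArithmeticFunction
open Pool.Agent.Helper29.E3 Pool.Agent.Helper49.PC
open Pool.Agent.Helper48.BK (ex th lz Vz Pz gs nd Apx AdN Sol thd)

theorem hMITX (hRED : StRED) (hMILX : StMILX) (hPV : StPV) : StMITX := by
  obtain ⟨C₁, hC₁, hred⟩ := hRED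
  obtain ⟨C, c, hC, hmil⟩ := hMILX
  intro E
  set u : ℕ := E + c + 1 with hu
  refine ⟨u + 1, ?_⟩
  intro N
  obtain ⟨x₀, hx₀⟩ := large_MIT (6 * u * (N + 1) + 2 * (E + 4)) (112 * C + 108 * C₁ + 16)
  refine ⟨x₀, ?_⟩
  intro M D v w₀ w₁ h θ hM hD hDM hap hpv hvp hw
  obtain ⟨hM3, hlogB, hlogN⟩ := hx₀ M hM
  set L := Real.log M with hL
  have hL16 : 16 ≤ L := by linarith
  have hL112 : 112 * C ≤ L := by linarith
  have hL108 : 108 * C₁ ≤ L := by linarith
  have hL1 : 1 ≤ L := by linarith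
  have hL0 : 0 < L := by linarith
  have hD1 : (1 : ℝ) ≤ D := by exact_mod_cast hD
  have hMone : 1 ≤ M := by omega
  have hM1 : (1 : ℝ) ≤ M := by exact_mod_cast hMone
  have hM0 : (0 : ℝ) < M := by linarith
  have hv1 : (1 : ℝ) ≤ v := by exact_mod_cast hap.1
  have hLu : 1 ≤ L ^ u := one_le_pow₀ hL1
  have hLu0 : 0 < L ^ u := by linarith
  have hLp : L ^ (u + 1) = L ^ u * L := pow_succ L u
  have hLup : 16 * L ^ u ≤ L ^ (u + 1) := by
    rw [hLp]
    nlinarith
  have hpv' : L ^ u ≤ v := by linarith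
  have hvpu : (v : ℝ) * L ^ u ≤ M := by
    have : (v : ℝ) * L ^ u ≤ v * L ^ (u + 1) :=
      mul_le_mul_of_nonneg_left (by linarith) (by linarith)
    linarith
  have hDMle' : D ≤ M ^ 2 := by
    have h1 : D ^ (N + 1) ≤ (M ^ 2) ^ (N + 1) := by
      rw [← pow_mul]
      exact hDM.trans (Nat.pow_le_pow_right (by omega) (by omega))
    exact (Nat.pow_le_pow_iff_left (by omega)).1 h1
  have hDMle : (D : ℝ) ≤ (M : ℝ) ^ 2 := by exact_mod_cast hDMle'
  have hvM : (v : ℝ) ≤ M := by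
    have : (v : ℝ) * 1 ≤ v * L ^ u := mul_le_mul_of_nonneg_left hLu (by linarith)
    linarith
  have hvM' : v ≤ M := by exact_mod_cast hvM
  -- the parameter `U`
  set U : ℕ := ⌈L ^ u⌉₊ with hU
  have hU1 : L ^ u ≤ U := Nat.le_ceil _
  have hU2 : (U : ℝ) ≤ 2 * L ^ u := by
    have := Nat.ceil_lt_add_one hLu0.le
    linarith
  have hUone : 1 ≤ U := by
    have : (1 : ℝ) ≤ U := hLu.trans hU1
    exact_mod_cast this
  have hUv : 2 * U ≤ v := by
    have : (2 : ℝ) * U ≤ v := by linarith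
    exact_mod_cast this
  have hUM : U ≤ M := by omega
  set X : ℕ := D * M with hX
  have hX0 : (0 : ℝ) < X := by
    rw [hX]
    push_cast
    positivity
  have hXcast : (X : ℝ) = D * M := by rw [hX]; push_cast; ring
  have hMX : (M : ℝ) ≤ X := by
    rw [hXcast]
    nlinarith
  have hDX : D ≤ X := by
    rw [hX]
    exact Nat.le_mul_of_pos_right D (by omega)
  have hlogX : Real.log X ≤ 3 * L := by
    rw [hXcast, Real.log_mul (by linarith) (by linarith)]
    have := Real.log_le_log (by linarith) hDMle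
    rw [Real.log_pow] at this
    push_cast at this
    linarith
  have hlogX0 : 0 ≤ Real.log X := Real.log_nonneg (by linarith)
  -- first part
  have hred' := hred X D D w₀ w₁ θ (by
    have h5 : M ≤ X := by exact_mod_cast hMX
    omega) hD hDX hD hDX hw
  -- second part
  set B := C * ((D : ℝ) * M) ^ 2 * L ^ c *
      (1 / v + 1 / U + 1 / U + 1 / U + v / M + (U : ℝ) * (v : ℝ) ^ 2 / M ^ 2 +
        (U : ℝ) ^ 2 * (U : ℝ) ^ 2 * D / M ^ 2) with hB
  have hcop := cop_MIT hPV X D w₀ w₁ θ B hD hw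
    (fun y hy => hmil M D v U U U y h θ hM3 hD hDMle' hUone hUM hUone hUM hUone hUv hvM' hy hap)
  have hsum := NN_add_MIT
    (fun n => ((cut th w₀ w₁ n - (if Nat.Coprime n D then cut (fun n => Λ n) w₀ w₁ n else 0) :
      ℝ) : ℂ))
    (fun n => (((if Nat.Coprime n D then cut (fun n => Λ n) w₀ w₁ n else 0) : ℝ) : ℂ)) X D θ
  have hfun : (fun n => ((cut th w₀ w₁ n -
        (if Nat.Coprime n D then cut (fun n => Λ n) w₀ w₁ n else 0) : ℝ) : ℂ) +
      (((if Nat.Coprime n D then cut (fun n => Λ n) w₀ w₁ n else 0) : ℝ) : ℂ)) =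
      fun n => ((cut th w₀ w₁ n : ℝ) : ℂ) := by
    funext n
    push_cast
    ring
  rw [hfun] at hsum
  -- the numerical inequalities
  have n1 : 2 * (C₁ * X * √X * Real.log X ^ 3) ≤ (X : ℝ) ^ 2 / L ^ E / 2 := by
    have hsq : L ^ (E + 4) ≤ √X := by
      apply Real.le_sqrt_of_sq_le
      calc (L ^ (E + 4)) ^ 2 = L ^ (2 * (E + 4)) := by rw [mul_comm, pow_mul]
        _ ≤ L ^ (6 * u * (N + 1) + 2 * (E + 4)) := pow_le_pow_right₀ hL1 (by omega)
        _ ≤ M := hlogN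
        _ ≤ X := hMX
    have g1 : Real.log X ^ 3 ≤ (3 * L) ^ 3 := pow_le_pow_left₀ hlogX0 hlogX 3
    have g2 : 108 * C₁ * L ^ 3 * L ^ E ≤ √X := by
      calc 108 * C₁ * L ^ 3 * L ^ E ≤ L * L ^ 3 * L ^ E := by
            refine mul_le_mul_of_nonneg_right ?_ (by positivity)
            exact mul_le_mul_of_nonneg_right hL108 (by positivity)
        _ = L ^ (E + 4) := by rw [pow_add]; ring
        _ ≤ √X := hsq
    have hsX : √(X : ℝ) * √X = X := Real.mul_self_sqrt hX0.le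
    have hLE : 0 < L ^ E := by positivity
    rw [div_div, le_div_iff₀ (by positivity)]
    calc 2 * (C₁ * X * √X * Real.log X ^ 3) * (L ^ E * 2)
        ≤ 2 * (C₁ * X * √X * (3 * L) ^ 3) * (L ^ E * 2) := by
          refine mul_le_mul_of_nonneg_right ?_ (by positivity)
          refine mul_le_mul_of_nonneg_left ?_ (by norm_num)
          exact mul_le_mul_of_nonneg_left g1 (by positivity)
      _ = X * √X * (108 * C₁ * L ^ 3 * L ^ E) := by ring
      _ ≤ X * √X * √X := mul_le_mul_of_nonneg_left g2 (by positivity)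
      _ = X ^ 2 := by rw [mul_assoc, hsX]; ring
  have n2 : 8 * B ≤ (X : ℝ) ^ 2 / L ^ E / 2 := by
    have t1 : (1 : ℝ) / v ≤ 1 / L ^ u := one_div_le_one_div_of_le hLu0 hpv'
    have t2 : (1 : ℝ) / U ≤ 1 / L ^ u := one_div_le_one_div_of_le hLu0 hU1
    have t4 : (v : ℝ) / M ≤ 1 / L ^ u := by
      rw [div_le_div_iff₀ hM0 hLu0, one_mul]
      exact hvpu
    have t5 : (U : ℝ) * (v : ℝ) ^ 2 / M ^ 2 ≤ 1 / L ^ u := by
      rw [div_le_div_iff₀ (by positivity) hLu0, one_mul]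
      calc (U : ℝ) * (v : ℝ) ^ 2 * L ^ u ≤ (2 * L ^ u) * (v : ℝ) ^ 2 * L ^ u := by
            refine mul_le_mul_of_nonneg_right ?_ hLu0.le
            exact mul_le_mul_of_nonneg_right hU2 (by positivity)
        _ = 2 * ((v : ℝ) * L ^ u) ^ 2 := by ring
        _ ≤ 16 ^ 2 * ((v : ℝ) * L ^ u) ^ 2 :=
            mul_le_mul_of_nonneg_right (by norm_num) (by positivity)
        _ = (v * (16 * L ^ u)) ^ 2 := by ring
        _ ≤ (v * L ^ (u + 1)) ^ 2 :=
            pow_le_pow_left₀ (by positivity)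
              (mul_le_mul_of_nonneg_left hLup (by linarith)) 2
        _ ≤ M ^ 2 := pow_le_pow_left₀ (by positivity) hvp 2
    have t6 : (U : ℝ) ^ 2 * (U : ℝ) ^ 2 * D / M ^ 2 ≤ 1 / L ^ u := by
      rw [div_le_div_iff₀ (by positivity) hLu0, one_mul]
      have s1 : (D : ℝ) * L ^ (6 * u) ≤ (M : ℝ) ^ 2 := by
        have s2 : ((D : ℝ) * L ^ (6 * u)) ^ (N + 1) ≤ ((M : ℝ) ^ 2) ^ (N + 1) := by
          have s3 : (D : ℝ) ^ (N + 1) ≤ (M : ℝ) ^ (2 * N) := by exact_mod_cast hDM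
          calc ((D : ℝ) * L ^ (6 * u)) ^ (N + 1)
              = (D : ℝ) ^ (N + 1) * L ^ (6 * u * (N + 1)) := by rw [mul_pow, ← pow_mul]
            _ ≤ (M : ℝ) ^ (2 * N) * M := by
                refine mul_le_mul s3 ?_ (by positivity) (by positivity)
                exact (pow_le_pow_right₀ hL1 (by omega)).trans hlogN
            _ = (M : ℝ) ^ (2 * N + 1) := (pow_succ _ _).symm
            _ ≤ (M : ℝ) ^ (2 * (N + 1)) := pow_le_pow_right₀ hM1 (by omega)
            _ = ((M : ℝ) ^ 2) ^ (N + 1) := by rw [pow_mul]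
        exact (pow_le_pow_iff_left₀ (by positivity) (by positivity) (by omega)).1 s2
      have s4 : (16 : ℝ) ≤ L ^ u := by
        calc (16 : ℝ) ≤ L := hL16
          _ = L ^ 1 := (pow_one L).symm
          _ ≤ L ^ u := pow_le_pow_right₀ hL1 (by omega)
      calc (U : ℝ) ^ 2 * (U : ℝ) ^ 2 * D * L ^ u = (U : ℝ) ^ 4 * (D * L ^ u) := by ring
        _ ≤ (2 * L ^ u) ^ 4 * (D * L ^ u) :=
            mul_le_mul_of_nonneg_right (pow_le_pow_left₀ (Nat.cast_nonneg U) hU2 4)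
              (by positivity)
        _ = 16 * ((L ^ u) ^ 5 * D) := by ring
        _ ≤ L ^ u * ((L ^ u) ^ 5 * D) := mul_le_mul_of_nonneg_right s4 (by positivity)
        _ = D * L ^ (6 * u) := by
            rw [show 6 * u = u * 6 by ring, pow_mul]
            ring
        _ ≤ M ^ 2 := s1
    have t7 : 1 / v + 1 / U + 1 / U + 1 / U + v / M + (U : ℝ) * (v : ℝ) ^ 2 / M ^ 2 +
        (U : ℝ) ^ 2 * (U : ℝ) ^ 2 * D / M ^ 2 ≤ 7 * (1 / L ^ u) := by
      linarith
    have hBle : B ≤ C * (X : ℝ) ^ 2 * L ^ c * (7 * (1 / L ^ u)) := by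
      rw [hB, hXcast]
      exact mul_le_mul_of_nonneg_left t7 (by positivity)
    have hLsplit : L ^ u = L ^ E * L ^ c * L := by
      rw [hu, pow_succ, pow_add]
    have g3 : 8 * (C * (X : ℝ) ^ 2 * L ^ c * (7 * (1 / L ^ u))) =
        (112 * C) * ((X : ℝ) ^ 2 / L ^ E / 2) / L := by
      rw [hLsplit]
      field_simp
      ring
    have g4 : (112 * C) * ((X : ℝ) ^ 2 / L ^ E / 2) / L ≤ (X : ℝ) ^ 2 / L ^ E / 2 := by
      rw [div_le_iff₀ hL0]
      have : 0 ≤ (X : ℝ) ^ 2 / L ^ E / 2 := by positivity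
      nlinarith
    linarith
  have hfinal : (((D : ℕ) : ℝ) * M) ^ 2 / L ^ E = (X : ℝ) ^ 2 / L ^ E := by rw [hXcast]
  rw [hfinal]
  linarith

end Pool.Agent.Helper36.E3
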